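import Pool.Agent.N375.AV.L2
import Pool.Agent.N375.AV.Ex
import Pool.Agent.Results.MP_484fb8_nt.AsymptoticEveryModulus

/-!
# Goldbach representations in primorial intervals, for all even integers near the values of additive functions and of their
# compositions

Let `F = f_1 ∘ ⋯ ∘ f_k` be a composition of functions dominated by the largest prime factor: additive functions `f` with
`f (q^j) ≤ C q^j` at the prime powers and with different values at different large primes (for example the sum of the prime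
factors), the largest prime factor itself, Kempner's function. Let `G` be a function with steps bounded below by a positive
constant and `G v ≤ C v` (for example `G v = α v`). For all `m ≤ N` but `N / (log N) ^ U` (every `U`) ALL even integers `n` with
`|n - G (F m)| ≤ (1 + log F(m)) ^ V` satisfy the assertion of the problem, with the predicted number of representations, also in
windows (`Holds ε W n`, definition of the starting file `AsymptoticEveryModulus`). For instance: for almost all `m` all even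
integers within `(log P(m)) ^ V` of the largest prime factor `P(m)` of `m`. The values of `F` are taken with large
multiplicities and `F(m)` is in general much smaller than `m`, so this is not a consequence of the number of the exceptions.

Proof. The preimage under a function dominated by the largest prime factor of a set with a saving of every power of the logarithm
has such a saving (`Pool/Agent/N375/AV`).
-/

set_option autoImplicit false

namespace Pool.Agent.Results.MP_484fb8_nt.AdditiveValues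

open Finset
open Pool.Agent.N733.TG (Expanding expanding_pow)
open Pool.Agent.N375.AV (PD comp log_windows logThin_of LogThin pd_additive pd_largest pd_kempner)
open Pool.Agent.Results.MP_484fb8_nt.AsymptoticEveryModulus (Holds exceptional)

open Classical in
lemma thin (ε : ℝ) (hε : 0 < ε) (W : ℕ) : LogThin {n : ℕ | 2 ∣ n ∧ ¬ Holds ε W n} := by
  refine logThin_of (fun B => ?_)
  obtain ⟨A, hA⟩ := exists_nat_ge B
  obtain ⟨x₀, hx₀⟩ := Pool.Agent.Results.MP_484fb8_nt.AsymptoticEveryModulus.result ε (1 / 3) hε (by norm_num) W A 0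
  refine ⟨max ⌈x₀⌉₊ 3, fun X hX => ?_⟩
  have hX1 : x₀ ≤ X := (Nat.le_ceil x₀).trans (by exact_mod_cast (le_max_left _ _).trans hX)
  have hX3 : (3 : ℝ) ≤ X := by exact_mod_cast (le_max_right _ _).trans hX
  obtain ⟨hfin, h⟩ := hx₀ X hX1 1 le_rfl (by
    rw [Nat.cast_one]
    exact Real.one_le_rpow (by linarith) (by norm_num)) 0 (by simp)
  have hL1 : 1 ≤ Real.log X := by
    rw [Real.le_log_iff_exp_le (by linarith)]
    have := Real.exp_one_lt_d9
    linarith
  have hsub : (((Icc 1 X).filter (fun n => n ∈ {n : ℕ | 2 ∣ n ∧ ¬ Holds ε W n}) : Finset ℕ) : Set ℕ) ⊆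
      exceptional ε W X 1 0 := by
    intro n hn
    rw [mem_coe, mem_filter, mem_Icc] at hn
    obtain ⟨⟨h1, h2⟩, h3, h4⟩ := hn
    exact ⟨h1, by exact_mod_cast h2, h3, by rw [Nat.cast_one]; exact Int.modEq_one, h4⟩
  have h5 := Set.ncard_le_ncard hsub hfin
  rw [Set.ncard_coe_finset] at h5
  have h6 : (((Icc 1 X).filter (fun n => n ∈ {n : ℕ | 2 ∣ n ∧ ¬ Holds ε W n})).card : ℝ) ≤
      X / ((1 : ℕ) * Real.log X ^ A) := le_trans (by exact_mod_cast h5) h
  refine le_trans (le_of_eq (by congr!)) (h6.trans ?_)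
  rw [Nat.cast_one, one_mul]
  apply div_le_div_of_nonneg_left (by linarith) (by positivity)
  rw [← Real.rpow_natCast]
  exact Real.rpow_le_rpow_of_exponent_le hL1 hA

/-- **Theorem.** (1) For every composition `F = f_1 ∘ ⋯ ∘ f_k` of functions dominated by the largest prime factor (`comp fs`,
`PD`), every `G` with steps `≥ a > 0` and growth at most `v`, all `ε > 0`, `W`, `V`, `U` and all large `N`, for all `m ≤ N`
but `N / (log N)^U` ALL even `n` with `|n - G (F m)| ≤ (1 + log F(m))^V` satisfy `Holds ε W n`: if `n` belongs to the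
primorial interval `I_{i+1}`, then `n = p + q` with primes `p ∈ I_i`, `q ∈ I_i ∪ I_{i+1}`, the number of these
representations and the number of those with `p` in a window of length at least `#(i) / (log n) ^ W` are the ones predicted by
Hardy and Littlewood up to a relative error of at most `ε`. (2), (3) Examples of `f_i` and `G`: additive functions with
`f (q^j) ≤ C q^j` at the prime powers and different values at different large primes; the largest prime factor, Kempner's
function; `G v = α v`, `α > 0`. -/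
theorem result :
    (∀ fs : List (ℕ → ℕ), (∀ f ∈ fs, PD f) → ∀ G : ℕ → ℝ, Expanding G 1 → ∀ ε : ℝ, 0 < ε → ∀ W V U : ℕ,
      ∃ N₀ : ℕ, ∀ N : ℕ, N₀ ≤ N →
      ({m : ℕ | 1 ≤ m ∧ m ≤ N ∧ ¬ ∀ n : ℕ, 2 ∣ n → |(n : ℝ) - G (comp fs m)| ≤ (1 + Real.log (comp fs m)) ^ V →
        Holds ε W n}.ncard : ℝ) ≤ N / Real.log N ^ U) ∧
    (∀ f : ℕ → ℕ, (∀ a b : ℕ, Nat.Coprime a b → f (a * b) = f a + f b) →
      (∃ C : ℕ, ∀ q j : ℕ, q.Prime → 1 ≤ j → f (q ^ j) ≤ C * q ^ j) →
      (∃ P : ℕ, ∀ p q : ℕ, p.Prime → q.Prime → P ≤ p → P ≤ q → f p = f q → p = q) → PD f) ∧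
    (PD (fun n => n.primeFactors.sup id) ∧ PD (fun n => sInf {k : ℕ | n ∣ k.factorial})) ∧
    ∀ α : ℝ, 0 < α → Expanding (fun v => α * (v : ℝ) ^ (1 : ℝ)) 1 := by
  refine ⟨fun fs hfs G hG ε hε W V U => ?_, fun f a1 a2 a3 => pd_additive a1 a2 a3, ⟨pd_largest, pd_kempner⟩,
    fun α hα => expanding_pow hα le_rfl⟩
  obtain ⟨N₀, hN₀⟩ := log_windows (thin ε hε W) fs hfs hG V U
  refine ⟨N₀, fun N hN => le_trans ?_ (hN₀ N hN)⟩
  have hfin : {m : ℕ | 1 ≤ m ∧ m ≤ N ∧ ∃ n ∈ {n : ℕ | 2 ∣ n ∧ ¬ Holds ε W n},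
      |(n : ℝ) - G (comp fs m)| ≤ (1 + Real.log (comp fs m)) ^ V}.Finite :=
    (Set.finite_Icc 1 N).subset fun m hm => ⟨hm.1, hm.2.1⟩
  have hsub : {m : ℕ | 1 ≤ m ∧ m ≤ N ∧ ¬ ∀ n : ℕ, 2 ∣ n → |(n : ℝ) - G (comp fs m)| ≤ (1 + Real.log (comp fs m)) ^ V →
        Holds ε W n} ⊆ {m : ℕ | 1 ≤ m ∧ m ≤ N ∧ ∃ n ∈ {n : ℕ | 2 ∣ n ∧ ¬ Holds ε W n},
      |(n : ℝ) - G (comp fs m)| ≤ (1 + Real.log (comp fs m)) ^ V} := by
    rintro m ⟨h1, h2, h3⟩
    push Not at h3
    obtain ⟨n, h4, h5, h6⟩ := h3
    exact ⟨h1, h2, n, ⟨h4, h6⟩, h5⟩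
  exact_mod_cast Set.ncard_le_ncard hsub hfin

end Pool.Agent.Results.MP_484fb8_nt.AdditiveValues
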