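import Pool.Agent.Zk95.TR.AP
import Pool.Agent.W93.PG7

/-!
# Every large even integer is the sum of a prime of the primorial interval and a product of at most three primes

Let `m` be an even integer of the `(i + 1)`-st primorial interval. The problem asks for primes `p` in the `i`-th primorial
interval and `q` in the `i`-th or `(i + 1)`-st one with `m = p + q`. Here `q = m - p` has at most `r` prime factors, all of
them `≥ m ^ (1/17)`.

For `r = 3` (and `r ≥ 3`) this holds for EVERY large even `m`: at every scale `x` inside the `i`-th primorial interval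
(`4 (#(i-1) + 1) ≤ x ≤ #(i) + 1`, `x ≤ m / 2`) the number of the primes `p`, `x / 4 < p < x`, for which `q = m - p` is such a
number has at least the right order of magnitude `c 𝔖(m) x / (log m) ^ 2`, and every subset with a positive proportion of
these primes contains `k` members in arithmetic progression with a difference at most `(log m) ^ B`. For `r = 2` the same
holds for all but at most `C X ^ η` of the even `m ≤ X`, `η > 2 / Λ_2 - 1 = 0.0905…`, `Λ_2 = 3 - log (18 / 5) / log 3` (Richert).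

The lower ends `#(i-1)` are as small as `m / (log m) ^ 2`, and `m - p` is as large as `m`, so this is not a consequence of the
theorems on all representations `m = p + P_r`. The starting files on this problem contain no theorem on almost primes.

Definition used from `Pool.Agent.H560R3.GB` (starting files): `sing m`: the singular series
`2 C₂ ∏_{p ∣ m, p > 2} (p - 1) / (p - 2)`, where `C₂ = ∏_{p > 2} (1 - 1 / (p - 1) ^ 2)`.

Proof. The weighted linear sieve and the relative Szemerédi theorem of the starting files in all dyadic windows of length at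
least `m ^ θ` (`Zk95.TR.AP`, which is the proof of `Results/MP_73b532_nt/AlmostPrimesAllScales`).
-/

set_option autoImplicit false

namespace Pool.Agent.Results.MP_484fb8_nt.AlmostPrimes

open Finset Filter
open Pool.Agent.H560R3.GB (sing)

/-- `#(n)`: the product of the first `n` primes. -/
noncomputable def primorial (n : ℕ) : ℕ := ∏ i ∈ range n, Nat.nth Nat.Prime i

/-- `S` contains a progression `a, a + d, …, a + (k - 1) d` with difference `1 ≤ d ≤ D`. -/
def HasAP (k : ℕ) (D : ℝ) (S : Finset ℕ) : Prop :=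
  ∃ a d : ℕ, 1 ≤ d ∧ (d : ℝ) ≤ D ∧ ∀ j < k, a + j * d ∈ S

open Classical in
/-- the primes `p` of the `i`-th primorial interval with `x / 4 < p < x` such that `m - p` belongs to the `i`-th or to the
`(i + 1)`-st primorial interval and has at most `r` prime factors (counted with multiplicity), all of them at least `w` -/
noncomputable def Reps (r : ℕ) (w : ℝ) (m i : ℕ) (x : ℝ) : Finset ℕ :=
  (Icc (primorial (i - 1) + 1) (primorial i + 1)).filter (fun p : ℕ => p.Prime ∧ x / 4 < p ∧ (p : ℝ) < x ∧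
    primorial (i - 1) + 1 ≤ m - p ∧ m - p ≤ primorial (i + 1) + 1 ∧
    (m - p).primeFactorsList.length ≤ r ∧ ∀ q : ℕ, q.Prime → q ∣ (m - p) → w ≤ q)

/-- Let `m` belong to the `(i + 1)`-st primorial interval. There are scales `x` with `4 (#(i-1) + 1) ≤ x ≤ #(i) + 1` and
`x ≤ m / 2`, and for every such `x` the set `Reps r (m ^ (1/17)) m i x` is not empty, has at least `c 𝔖(m) x / (log m) ^ 2`
elements, and each of its subsets with a proportion at least `κ` of the elements contains `k` members in arithmetic progression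
with a difference at most `(log m) ^ B`. -/
def Full (r : ℕ) (c : ℝ) (k : ℕ) (κ : ℝ) (B m : ℕ) : Prop :=
  ∀ i : ℕ, 1 ≤ i → primorial i + 1 ≤ m → m ≤ primorial (i + 1) + 1 →
    (∃ x : ℝ, 4 * ((primorial (i - 1) : ℝ) + 1) ≤ x ∧ x ≤ primorial i + 1 ∧ x ≤ m / 2) ∧
    ∀ x : ℝ, 4 * ((primorial (i - 1) : ℝ) + 1) ≤ x → x ≤ primorial i + 1 → x ≤ m / 2 →
      (Reps r ((m : ℝ) ^ ((1 : ℝ) / 17)) m i x).Nonempty ∧
      c * (sing m * x / Real.log m ^ 2) ≤ (Reps r ((m : ℝ) ^ ((1 : ℝ) / 17)) m i x).card ∧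
      ∀ S ⊆ Reps r ((m : ℝ) ^ ((1 : ℝ) / 17)) m i x,
        κ * (Reps r ((m : ℝ) ^ ((1 : ℝ) / 17)) m i x).card ≤ S.card → HasAP k (Real.log m ^ B) S

/-- the constant of Richert, `r + 1 - log (4 / (1 + 3 ^ (-r))) / log 3` -/
noncomputable def Lam (r : ℕ) : ℝ := r + 1 - Real.log (4 / (1 + (1 / 3) ^ r)) / Real.log 3

lemma mono {i j : ℕ} (h : i ≤ j) : primorial i ≤ primorial j := Pool.Agent.W93.PG.PR_mono h

lemma pos (i : ℕ) : 1 ≤ primorial i := Pool.Agent.W93.PG.PR_pos i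

lemma succ (i : ℕ) : primorial (i + 1) = primorial i * Nat.nth Nat.Prime i := Pool.Agent.W93.PG.PR_succ i

lemma ev_log (A : ℝ) : ∀ᶠ m : ℕ in atTop, A ≤ Real.log m :=
  (Real.tendsto_log_atTop.comp (tendsto_natCast_atTop_atTop (R := ℝ))).eventually_ge_atTop A

lemma ev_pow (a : ℝ) (ha : 0 < a) (n : ℕ) : ∀ᶠ m : ℕ in atTop, Real.log m ^ n ≤ (m : ℝ) ^ a := by
  have h2 := (isLittleO_log_rpow_rpow_atTop (s := a) (n : ℝ) ha).bound (c := 1) one_pos
  have h3 := (tendsto_natCast_atTop_atTop (R := ℝ)).eventually h2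
  filter_upwards [h3, ev_log 1, eventually_ge_atTop 1] with m hm hl hm1
  have h4 : (1 : ℝ) ≤ m := by exact_mod_cast hm1
  rw [Real.norm_of_nonneg (Real.rpow_nonneg (by linarith) _), Real.norm_of_nonneg (Real.rpow_nonneg (by linarith) _),
    one_mul, Real.rpow_natCast] at hm
  exact hm

lemma next_le : ∃ m₀ : ℕ, ∀ m : ℕ, m₀ ≤ m → ∀ n : ℕ, primorial n + 1 ≤ m → m ≤ primorial (n + 1) + 1 →
    (m : ℝ) ≤ primorial n * Real.log m ^ 2 := by
  obtain ⟨n0, h0⟩ := Pool.Agent.W93.PG.next_prime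
  obtain ⟨m1, h1⟩ := eventually_atTop.1 (ev_log 6)
  refine ⟨primorial (n0 + 1) + m1 + 3, fun m hm n h2 h3 => ?_⟩
  have hL6 := h1 m (by omega)
  have hn : n0 ≤ n := by
    by_contra hcon
    have := mono (show n + 1 ≤ n0 + 1 by omega)
    omega
  have h4 := h0 n hn
  have hP : (1 : ℝ) ≤ primorial n := by exact_mod_cast pos n
  have hPR : (Pool.Agent.W93.PG.PR n : ℝ) = primorial n := rfl
  rw [hPR] at h4
  have h5 : Real.log (primorial n) ≤ Real.log m :=
    Real.log_le_log (by linarith) (by exact_mod_cast (by omega : primorial n ≤ m))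
  have h6 : (primorial (n + 1) : ℝ) = primorial n * Nat.nth Nat.Prime n := by exact_mod_cast succ n
  have h8 : (m : ℝ) ≤ primorial (n + 1) + 1 := by exact_mod_cast h3
  calc (m : ℝ) ≤ primorial n * Nat.nth Nat.Prime n + 1 := by rw [← h6]; exact h8
    _ ≤ primorial n * (4 * Real.log m + 1) + primorial n := by
        apply add_le_add _ hP
        apply mul_le_mul_of_nonneg_left _ (by linarith)
        linarith
    _ = primorial n * (4 * Real.log m + 2) := by ring
    _ ≤ primorial n * Real.log m ^ 2 := by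
        apply mul_le_mul_of_nonneg_left _ (by linarith)
        nlinarith

/-- the lower end of the interval -/
lemma lower (θ : ℝ) (hθ : θ < 1) : ∃ m₀ : ℕ, ∀ m : ℕ, m₀ ≤ m → ∀ i : ℕ, 1 ≤ i → primorial i + 1 ≤ m →
    m ≤ primorial (i + 1) + 1 → (m : ℝ) ^ θ ≤ primorial (i - 1) ∧ 8 * (primorial (i - 1) + 1) ≤ primorial i := by
  obtain ⟨m₁, h1⟩ := next_le
  obtain ⟨m₂, h2⟩ := eventually_atTop.1 (ev_pow (1 - θ) (by linarith) 4)
  obtain ⟨m₃, h3⟩ := eventually_atTop.1 (ev_pow (1 / 2) (by norm_num) 2)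
  obtain ⟨m₄, h4⟩ := eventually_atTop.1 (ev_log 1)
  refine ⟨m₁ + m₂ + m₃ + m₄ + (m₁ + 1) ^ 2 + primorial 20 + 3, fun m hm i hi him him2 => ?_⟩
  have hm1 := h1 m (by omega) i him him2
  have hm2 := h2 m (by omega)
  have hm3 := h3 m (by omega)
  have hL1 := h4 m (by omega)
  have hm0 : (3 : ℝ) ≤ m := by exact_mod_cast (by omega : 3 ≤ m)
  have hmp : (0 : ℝ) < m := by linarith
  -- `#(i) ≥ √m`
  have hsq : (m : ℝ) ^ (1 / 2 : ℝ) * (m : ℝ) ^ (1 / 2 : ℝ) = m := by
    rw [← Real.rpow_add hmp]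
    norm_num
  have hs0 : 0 < (m : ℝ) ^ (1 / 2 : ℝ) := Real.rpow_pos_of_pos hmp _
  have hPi : (m : ℝ) ^ (1 / 2 : ℝ) ≤ primorial i := by
    have h5 : (m : ℝ) ^ (1 / 2 : ℝ) * (m : ℝ) ^ (1 / 2 : ℝ) ≤ primorial i * (m : ℝ) ^ (1 / 2 : ℝ) := by
      rw [hsq]
      exact hm1.trans (mul_le_mul_of_nonneg_left hm3 (Nat.cast_nonneg _))
    exact le_of_mul_le_mul_right h5 hs0
  have hsqm : ((m₁ + 1 : ℕ) : ℝ) ≤ (m : ℝ) ^ (1 / 2 : ℝ) := by
    have h6 : (((m₁ + 1 : ℕ) : ℝ)) ^ 2 ≤ m := by exact_mod_cast (by omega : (m₁ + 1) ^ 2 ≤ m)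
    rw [← Real.sqrt_eq_rpow]
    exact Real.le_sqrt_of_sq_le h6
  have hPm1 : m₁ + 1 ≤ primorial i := by exact_mod_cast hsqm.trans hPi
  have hi1 : i - 1 + 1 = i := by omega
  have h7 := h1 (primorial i + 1) (by omega) (i - 1) (by have := mono (show i - 1 ≤ i by omega); omega)
    (by rw [hi1])
  have hP1 : (1 : ℝ) ≤ primorial i := by exact_mod_cast pos i
  have h8 : Real.log ((primorial i + 1 : ℕ) : ℝ) ≤ Real.log m :=
    Real.log_le_log (by positivity) (by exact_mod_cast him)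
  have h80 : 0 ≤ Real.log ((primorial i + 1 : ℕ) : ℝ) := Real.log_natCast_nonneg _
  have h9 : (primorial i : ℝ) ≤ primorial (i - 1) * Real.log m ^ 2 := by
    have h10 : (primorial i : ℝ) ≤ ((primorial i + 1 : ℕ) : ℝ) := by push_cast; linarith
    refine (h10.trans h7).trans (mul_le_mul_of_nonneg_left ?_ (Nat.cast_nonneg _))
    exact pow_le_pow_left₀ h80 h8 2
  constructor
  · have h11 : (m : ℝ) ≤ primorial (i - 1) * Real.log m ^ 4 := by
      calc (m : ℝ) ≤ primorial i * Real.log m ^ 2 := hm1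
        _ ≤ primorial (i - 1) * Real.log m ^ 2 * Real.log m ^ 2 := by gcongr
        _ = primorial (i - 1) * Real.log m ^ 4 := by ring
    have h12 : (m : ℝ) ^ θ * (m : ℝ) ^ (1 - θ) ≤ primorial (i - 1) * (m : ℝ) ^ (1 - θ) := by
      rw [← Real.rpow_add hmp]
      rw [show θ + (1 - θ) = 1 by ring, Real.rpow_one]
      exact h11.trans (mul_le_mul_of_nonneg_left hm2 (Nat.cast_nonneg _))
    exact le_of_mul_le_mul_right h12 (Real.rpow_pos_of_pos hmp _)
  · have hi20 : 20 ≤ i := by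
      by_contra hcon
      have := mono (show i + 1 ≤ 20 by omega)
      omega
    have h13 := succ (i - 1)
    rw [hi1] at h13
    have h14 := Nat.add_two_le_nth_prime (i - 1)
    have h15 := pos (i - 1)
    rw [h13]
    nlinarith

lemma reps_eq (r : ℕ) (w : ℝ) (m i : ℕ) (x : ℝ) (hx : 4 * ((primorial (i - 1) : ℝ) + 1) ≤ x)
    (hx1 : x ≤ primorial i + 1) (hx2 : x ≤ m / 2) (him2 : m ≤ primorial (i + 1) + 1) :
    Reps r w m i x = Pool.Agent.Zk95.TR.AP.P r w m x := by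
  classical
  ext p
  unfold Reps Pool.Agent.Zk95.TR.AP.P
  rw [mem_filter, mem_filter, mem_Icc, mem_range]
  constructor
  · rintro ⟨⟨h1, h2⟩, h3, h4, h5, h6, h7, h8, h9⟩
    refine ⟨?_, h3, h4, h5, h8, h9⟩
    by_contra hcon
    have : m - p = 0 := by omega
    omega
  · rintro ⟨h1, h3, h4, h5, h8, h9⟩
    have h10 : (primorial (i - 1) : ℝ) + 1 < p := by linarith
    have h11 : primorial (i - 1) + 1 < p := by exact_mod_cast h10
    have h12 : (p : ℝ) < primorial i + 1 := by linarith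
    have h13 : p < primorial i + 1 := by exact_mod_cast h12
    have h14 : ((m - p : ℕ) : ℝ) = m - p := by push_cast [Nat.cast_sub h1.le]; ring
    have h15 : (primorial (i - 1) : ℝ) + 1 ≤ ((m - p : ℕ) : ℝ) := by
      rw [h14]
      have : (0 : ℝ) ≤ primorial (i - 1) := Nat.cast_nonneg _
      linarith
    exact ⟨⟨h11.le, h13.le⟩, h3, h4, h5, by exact_mod_cast h15, by omega, h8, h9⟩

lemma one_le_sing (m : ℕ) : 1 ≤ sing m := Pool.Agent.W93.GB.one_le_sing m

open Classical in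
theorem main (r : ℕ) (hr : 2 ≤ r) (η : ℝ) (hη0 : 0 ≤ η) (hη : 2 / Lam r - 1 < η) :
    ∃ c : ℝ, 0 < c ∧ ∀ (k : ℕ) (κ : ℝ), 0 < κ → ∃ (B : ℕ) (C : ℝ), 0 < C ∧ ∀ X : ℕ, 1 ≤ X →
      (((Icc 1 X).filter (fun m : ℕ => Even m ∧ ¬ Full r c k κ B m)).card : ℝ) ≤ C * (X : ℝ) ^ η := by
  -- choose `θ < 1`
  obtain ⟨θ, hθ2, hθ1, hθ⟩ : ∃ θ : ℝ, 1 / 2 ≤ θ ∧ θ < 1 ∧ 2 / Lam r < θ + η := by
    refine ⟨max (1 / 2) ((1 + (2 / Lam r - η)) / 2), le_max_left _ _, max_lt (by norm_num) (by linarith), ?_⟩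
    have := le_max_right (1 / 2 : ℝ) ((1 + (2 / Lam r - η)) / 2)
    linarith
  obtain ⟨c, hc, h⟩ := Pool.Agent.Zk95.TR.AP.main r hr ((1 + θ) / 2) η (by linarith) (by linarith) hη0
    (by
      have : 2 / Pool.Agent.Zk95.TR.AP.Lam r = 2 / Lam r := rfl
      rw [this]
      linarith)
  refine ⟨c, hc, fun k κ hκ => ?_⟩
  obtain ⟨B, C, hC, h2⟩ := h k κ hκ
  obtain ⟨m₀, hm₀⟩ := lower ((1 + θ) / 2) (by linarith)
  obtain ⟨m₁, hm₁⟩ := eventually_atTop.1 (ev_log 1)
  refine ⟨B, C + (m₀ + m₁ + 3 : ℕ), by positivity, fun X hX => ?_⟩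
  have hX1 : (1 : ℝ) ≤ X := by exact_mod_cast hX
  have hXη : (1 : ℝ) ≤ (X : ℝ) ^ η := Real.one_le_rpow hX1 hη0
  have hsub : (Icc 1 X).filter (fun m : ℕ => Even m ∧ ¬ Full r c k κ B m) ⊆
      ((Icc 1 X).filter (fun m : ℕ => Even m ∧ ∃ x : ℝ, 4 * (m : ℝ) ^ ((1 + θ) / 2) ≤ x ∧ x ≤ m / 2 ∧
        ¬ Pool.Agent.Zk95.TR.AP.Szemeredi r ((m : ℝ) ^ ((1 : ℝ) / 17)) c k κ B m x)) ∪ range (m₀ + m₁ + 3) := by
    intro m hm
    rw [mem_filter] at hm
    obtain ⟨hm1, hev, hF⟩ := hm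
    rw [mem_union, mem_range]
    by_contra hcon
    rw [not_or, not_lt] at hcon
    obtain ⟨hcon1, hcon2⟩ := hcon
    apply hF
    intro i hi him him2
    obtain ⟨e1, e2⟩ := hm₀ m (by omega) i hi him him2
    have hL1 := hm₁ m (by omega)
    have hm3 : (3 : ℝ) ≤ m := by exact_mod_cast (by omega : 3 ≤ m)
    have e3 : (8 : ℝ) * (primorial (i - 1) + 1) ≤ primorial i := by exact_mod_cast e2
    have e4 : (primorial i : ℝ) + 1 ≤ m := by exact_mod_cast him
    have e5 : (0 : ℝ) ≤ primorial (i - 1) := Nat.cast_nonneg _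
    refine ⟨⟨4 * ((primorial (i - 1) : ℝ) + 1), le_rfl, by linarith, by linarith⟩, fun x hx1 hx2 hx3 => ?_⟩
    have hSz : Pool.Agent.Zk95.TR.AP.Szemeredi r ((m : ℝ) ^ ((1 : ℝ) / 17)) c k κ B m x := by
      by_contra hcon3
      apply hcon1
      rw [mem_filter]
      exact ⟨hm1, hev, x, by linarith, hx3, hcon3⟩
    rw [reps_eq r _ m i x hx1 hx2 hx3 him2]
    refine ⟨?_, hSz.1, hSz.2⟩
    rw [← card_pos]
    have h5 : (0 : ℝ) < ((Pool.Agent.Zk95.TR.AP.P r ((m : ℝ) ^ ((1 : ℝ) / 17)) m x).card : ℝ) := by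
      refine lt_of_lt_of_le ?_ hSz.1
      have h6 := one_le_sing m
      have h7 : 0 < x := by linarith
      positivity
    exact_mod_cast h5
  have h4 := (card_le_card hsub).trans (card_union_le _ _)
  rw [card_range] at h4
  have h7 := (Nat.cast_le (α := ℝ)).2 h4
  rw [Nat.cast_add] at h7
  refine h7.trans ((add_le_add (h2 X hX) le_rfl).trans ?_)
  have h6 : ((m₀ + m₁ + 3 : ℕ) : ℝ) ≤ (m₀ + m₁ + 3 : ℕ) * (X : ℝ) ^ η :=
    le_mul_of_one_le_right (Nat.cast_nonneg _) hXη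
  linarith

/-- a set of natural numbers with a bounded number of members up to every `X` is finite -/
lemma all_of_bounded (Q : ℕ → Prop) [DecidablePred Q] (C : ℝ)
    (h : ∀ X : ℕ, 1 ≤ X → (((Icc 1 X).filter (fun m => Even m ∧ ¬ Q m)).card : ℝ) ≤ C) :
    ∃ m₀ : ℕ, ∀ m : ℕ, m₀ ≤ m → Even m → Q m := by
  by_contra hcon
  push Not at hcon
  have hinf : {m : ℕ | 1 ≤ m ∧ Even m ∧ ¬ Q m}.Infinite := by
    rw [← Nat.frequently_atTop_iff_infinite, Filter.frequently_atTop]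
    intro n
    obtain ⟨m, h1, h2, h3⟩ := hcon (n + 1)
    exact ⟨m, by omega, by omega, h2, h3⟩
  obtain ⟨N, hN⟩ := exists_nat_gt C
  obtain ⟨t, ht, htc⟩ := hinf.exists_subset_card_eq N
  obtain ⟨X, hX⟩ : ∃ X : ℕ, ∀ m ∈ t, m ≤ X := ⟨t.sup id, fun m hm => Finset.le_sup (f := id) hm⟩
  have h1 := h (X + 1) (by omega)
  have h2 : t ⊆ (Icc 1 (X + 1)).filter (fun m => Even m ∧ ¬ Q m) := by
    intro m hm
    have h3 : m ∈ {m : ℕ | 1 ≤ m ∧ Even m ∧ ¬ Q m} := ht (Finset.mem_coe.2 hm)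
    have h4 := hX m hm
    rw [mem_filter, mem_Icc]
    exact ⟨⟨h3.1, by omega⟩, h3.2⟩
  have h5 : (N : ℝ) ≤ (((Icc 1 (X + 1)).filter (fun m => Even m ∧ ¬ Q m)).card : ℝ) := by
    rw [← htc]
    exact_mod_cast card_le_card h2
  linarith

lemma lam_big (r : ℕ) (hr : 3 ≤ r) : 2 < Lam r := by
  have hL0 : 0 < Real.log 3 := Real.log_pos (by norm_num)
  have h1 : Real.log (4 / (1 + (1 / 3) ^ r)) ≤ 2 * Real.log 3 := by
    rw [show 2 * Real.log 3 = Real.log (3 ^ 2) by rw [Real.log_pow]; norm_num]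
    apply Real.log_le_log (by positivity)
    rw [div_le_iff₀ (by positivity)]
    have : (0 : ℝ) ≤ (1 / 3) ^ r := by positivity
    nlinarith
  have h2 : Real.log (4 / (1 + (1 / 3) ^ r)) / Real.log 3 ≤ 2 := by
    rw [div_le_iff₀ hL0]
    exact h1
  -- sharper: the numerator is smaller than `2 log 3`
  have h3 : Real.log (4 / (1 + (1 / 3) ^ r)) < 2 * Real.log 3 := by
    rw [show 2 * Real.log 3 = Real.log (3 ^ 2) by rw [Real.log_pow]; norm_num]
    apply Real.log_lt_log (by positivity)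
    rw [div_lt_iff₀ (by positivity)]
    have : (0 : ℝ) ≤ (1 / 3) ^ r := by positivity
    nlinarith
  have h4 : Real.log (4 / (1 + (1 / 3) ^ r)) / Real.log 3 < 2 := by
    rw [div_lt_iff₀ hL0]
    exact h3
  have h5 : (3 : ℝ) ≤ r := by exact_mod_cast hr
  unfold Lam
  linarith

open Classical in
/-- **Theorem.** (1) Let `r ≥ 3`. There is `c > 0` such that for all `k` and `κ > 0` there are `B` and `m₀` such that EVERY
even `m ≥ m₀` has the property `Full r c k κ B m`; in particular `m = p + q` with a prime `p` of the primorial interval just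
below the one of `m` and a product `q` of at most three primes, which belongs to one of these two intervals. (2) For
`η > 2 / Λ_2 - 1` there is `c > 0` such that for all `k` and `κ > 0` there are `B` and `C` such that for all `X ≥ 1` all but
at most `C X ^ η` of the even `m ≤ X` have the property `Full 2 c k κ B m` (products of at most two primes).
(3) `2 / Λ_2 - 1 < 0.091`. -/
theorem result :
    (∀ r : ℕ, 3 ≤ r → ∃ c : ℝ, 0 < c ∧ ∀ (k : ℕ) (κ : ℝ), 0 < κ → ∃ B m₀ : ℕ, ∀ m : ℕ, m₀ ≤ m → Even m →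
      Full r c k κ B m) ∧
    (∀ η : ℝ, 2 / Lam 2 - 1 < η → ∃ c : ℝ, 0 < c ∧ ∀ (k : ℕ) (κ : ℝ), 0 < κ → ∃ (B : ℕ) (C : ℝ), 0 < C ∧
      ∀ X : ℕ, 1 ≤ X → (((Icc 1 X).filter (fun m : ℕ => Even m ∧ ¬ Full 2 c k κ B m)).card : ℝ) ≤ C * (X : ℝ) ^ η) ∧
    (0 ≤ 2 / Lam 2 - 1 ∧ 2 / Lam 2 - 1 < 91 / 1000) := by
  have hL2 : 1 + 5 / 6 ≤ Lam 2 := by
    have h := Pool.Agent.K3h19.RV.lam_two
    have e : Lam 2 = Pool.Agent.K3h19.RV.Lam 2 := Pool.Agent.Zk95.TR.AP.Lam_eq 2
    rw [e]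
    exact h
  have hL2' : Lam 2 ≤ 2 := by
    have hL0 : 0 < Real.log 3 := Real.log_pos (by norm_num)
    unfold Lam
    have h1 : 1 ≤ Real.log (4 / (1 + (1 / 3) ^ 2)) / Real.log 3 := by
      rw [le_div_iff₀ hL0, one_mul]
      apply Real.log_le_log (by norm_num) (by norm_num)
    push_cast
    linarith
  have h0 : 0 ≤ 2 / Lam 2 - 1 := by
    have : 1 ≤ 2 / Lam 2 := by
      rw [le_div_iff₀ (by linarith), one_mul]
      exact hL2'
    linarith
  refine ⟨fun r hr => ?_, fun η hη => main 2 le_rfl η (by linarith) hη, h0, ?_⟩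
  · have h1 : 2 / Lam r - 1 < 0 := by
      have h2 := lam_big r hr
      have : 2 / Lam r < 1 := by
        rw [div_lt_one (by linarith)]
        exact h2
      linarith
    obtain ⟨c, hc, h⟩ := main r (by omega) 0 le_rfl h1
    refine ⟨c, hc, fun k κ hκ => ?_⟩
    obtain ⟨B, C, -, h2⟩ := h k κ hκ
    obtain ⟨m₀, hm₀⟩ := all_of_bounded (fun m => Full r c k κ B m) C (fun X hX => by
      have h3 := h2 X hX
      rw [Real.rpow_zero, mul_one] at h3
      exact h3)
    exact ⟨B, m₀, hm₀⟩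
  · have : 2 / Lam 2 ≤ 2 / (1 + 5 / 6) := div_le_div_of_nonneg_left (by norm_num) (by norm_num) hL2
    norm_num at this ⊢
    linarith

end Pool.Agent.Results.MP_484fb8_nt.AlmostPrimes
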