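import Pool.Agent.Zk95.TR.Prog
import Pool.Agent.Results.MP_484fb8_nt.AsymptoticEveryModulus

/-!
# Goldbach representations in primorial intervals for all even integers of long windows of residue classes near the
# powers of almost every real number

Let `v_j ≥ 1` be reals such that the sum of `v_j ^ (-t)` converges for some `t` (for instance `v_j = j`, `√j`, `2 ^ j`),
let `b ≥ 1`, let `q_j ≤ b ^ (2 v_j / 3)` be ARBITRARY moduli, and let `cls j` be an arbitrary set of at most `v_j ^ T` residue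
classes `a` modulo `q_j` with `gcd (a, q_j) ≤ v_j ^ T`. For almost every real `α > b`, all `ε > 0`, `W`, `A` and all large
`j`: EVERY even integer `m` with `|m - α ^ (v_j)| ≤ q_j v_j ^ A` whose class modulo `q_j` belongs to `cls j` satisfies the
assertion of the problem, with the predicted number of representations, also in windows (`Holds ε W m`, definition of the
starting file `AsymptoticEveryModulus`). The windows may be as long as `α ^ ((2/3 - ρ) v_j)`, `ρ > 0`. For `q_j = 1` these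
are all even integers within `v_j ^ A` of `α ^ (v_j)`; for `q_j = 10 ^ (k_j)` all even integers in a long window with the last
`k_j` digits prescribed.

Proof. Borel-Cantelli with the starting theorem on the residue classes of every modulus.
-/

set_option autoImplicit false

namespace Pool.Agent.Results.MP_484fb8_nt.LongWindowsNearPowers

open MeasureTheory
open Pool.Agent.H560R3.GB (sing)
open Pool.Agent.Results.MP_484fb8_nt.AsymptoticEveryModulus (Holds exceptional)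

/-- `Holds` is monotone in `ε` -/
lemma mono {ε ε' : ℝ} (hε : ε ≤ ε') {W : ℕ} {m : ℕ} (h : Holds ε W m) : Holds ε' W m := by
  have hs := Pool.Agent.W93.GB.one_le_sing m
  have hs0 : (0 : ℝ) ≤ sing m := by linarith
  intro i hi h1 h2
  obtain ⟨e1, e2, e3⟩ := h i hi h1 h2
  refine ⟨e1, e2.trans (mul_le_mul_of_nonneg_right hε (by positivity)), fun y₁ y₂ h12 hy hlen => ?_⟩
  have h3 : (0 : ℝ) ≤ (y₂ : ℝ) - y₁ := by
    have : (y₁ : ℝ) < y₂ := by exact_mod_cast h12
    linarith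
  exact (e3 y₁ y₂ h12 hy hlen).trans (mul_le_mul_of_nonneg_right hε (by positivity))

lemma thin (ε : ℝ) (hε : 0 < ε) (W : ℕ) :
    Pool.Agent.Zk95.TR.ClassThin (2 / 3) (fun m => 2 ∣ m ∧ ¬ Holds ε W m) := by
  intro ρ hρ A T
  obtain ⟨x₀, hx₀⟩ := Pool.Agent.Results.MP_484fb8_nt.AsymptoticEveryModulus.result ε ρ hε hρ W A T
  refine ⟨x₀, fun x hx q hq hqx a ha => ?_⟩
  have e : {m : ℕ | 0 < m ∧ (m : ℝ) ≤ x ∧ (m : ℤ) ≡ a [ZMOD q] ∧ 2 ∣ m ∧ ¬ Holds ε W m} = exceptional ε W x q a := by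
    ext m
    constructor
    · rintro ⟨h1, h2, h3, h4, h5⟩
      exact ⟨h1, h2, h4, h3, h5⟩
    · rintro ⟨h1, h2, h4, h3, h5⟩
      exact ⟨h1, h2, h3, h4, h5⟩
  rw [e]
  exact hx₀ x hx q hq hqx a ha

/-- **Theorem.** Let `v_j ≥ 1` with `∑ v_j ^ (-t) < ∞` for some `t`, `b ≥ 1`, `q_j` arbitrary moduli with
`1 ≤ q_j ≤ b ^ (2 v_j / 3)` and `cls j` sets of at most `v_j ^ T` integers `a` with `gcd (a, q_j) ≤ v_j ^ T`. There is a null
set `Z` such that for all `α > b` outside `Z`, all `ε > 0`, `W` and `A` and all but finitely many `j`: EVERY even integer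
`m ≡ a (mod q_j)`, `a ∈ cls j`, with `|m - α ^ (v_j)| ≤ q_j v_j ^ A` satisfies `Holds ε W m`: if `m` belongs to the primorial
interval `I_{i+1}`, then (1) `m = p + q` with primes `p ∈ I_i`, `q ∈ I_i ∪ I_{i+1}`; (2) the number of these representations
and (3) the number of those with `p` in a window of length at least `#(i) / (log m) ^ W` are the ones predicted by
Hardy and Littlewood up to a relative error of at most `ε`. -/
theorem result (v : ℕ → ℝ) (hv : ∀ j, 1 ≤ v j) (t : ℝ) (ht : Summable fun j => (v j) ^ (-t))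
    (b : ℝ) (hb : 1 ≤ b) (q : ℕ → ℕ) (hq : ∀ j, 1 ≤ q j) (hqb : ∀ j, (q j : ℝ) ≤ b ^ (2 / 3 * v j))
    (cls : ℕ → Finset ℤ) (T : ℕ) (hcard : ∀ j, ((cls j).card : ℝ) ≤ (v j) ^ T)
    (hgcd : ∀ j, ∀ a ∈ cls j, (Int.gcd a (q j) : ℝ) ≤ (v j) ^ T) :
    ∃ Z : Set ℝ, volume Z = 0 ∧ ∀ α : ℝ, b < α → α ∉ Z → ∀ ε : ℝ, 0 < ε → ∀ W A : ℕ, ∃ j₀ : ℕ, ∀ j : ℕ, j₀ ≤ j →
      ∀ a ∈ cls j, ∀ m : ℕ, 2 ∣ m → (m : ℤ) ≡ a [ZMOD q j] → |(m : ℝ) - α ^ (v j)| ≤ q j * (v j) ^ A →
        Holds ε W m := by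
  obtain ⟨Z, hZ, h⟩ := Pool.Agent.Zk95.TR.class_windows
    (fun (i : ℕ × ℕ) m => 2 ∣ m ∧ ¬ Holds (1 / ((i.1 : ℝ) + 1)) i.2 m) (c := 2 / 3) (by norm_num) (by norm_num)
    (fun i => thin _ (by positivity) _) hv ht hb q hq hqb cls T hcard hgcd
  refine ⟨Z, hZ, fun α hα hαZ ε hε W A => ?_⟩
  obtain ⟨k, hk⟩ := exists_nat_one_div_lt hε
  obtain ⟨j₀, hj⟩ := h α hα hαZ (k, W) A 3
  refine ⟨j₀, fun j hj1 a ha m hm hma hmx => ?_⟩
  obtain ⟨h1, h2⟩ := hj j hj1 a ha m hma hmx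
  by_contra hcon
  exact h2 ⟨hm, fun h3 => hcon (mono hk.le h3)⟩

end Pool.Agent.Results.MP_484fb8_nt.LongWindowsNearPowers
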