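import Pool.Agent.Zk41.NP4
import Pool.Agent.R460.GS.Conv
import Pool.Agent.R460.GS.Appl

/-!
# Szemerédi's theorem with narrow progressions for Goldbach representations in primorial intervals

Problem: every even `m` of the `n + 1`-st primorial interval is `p + q` with a prime `p` of the `n`-th primorial interval and
a prime `q` of the `n`-th or the `n + 1`-st one.

For every modulus `q ≤ x ^ (7 / 10 - ρ)` (no exceptional moduli) and every class `a` with `gcd(a, q) ≤ (log x) ^ T` all but at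
most `x / (q (log x) ^ A)` of the even `m ≤ x`, `m ≡ a (mod q)`, are such that EVERY admissible window `(u, v]` of length at
least `#(n) / (log m) ^ W` in the `n`-th primorial interval contains at least a twenty-first of the expected number of primes
`p` with `m - p` prime, and every subset with a positive proportion of their number contains `k` primes in arithmetic
progression with difference at most `(log m) ^ B`. The exponent `B` depends only on `W`, `k` and the proportion, not on `ρ`,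
`A`, `T`.

Definition used from `Pool.Agent.H560R3.GB` (starting files): `sing m`: the singular series
`2 C₂ ∏_{p ∣ m, p > 2} (p - 1) / (p - 2)`, where `C₂ = ∏_{p > 2} (1 - 1 / (p - 1) ^ 2)`.

Proof. The theorem on dense sets of primes `p` with `m - p` rough in all windows (`Zk41.NP2`, from `K3h89.SX` of the starting
files) and the lower bounds in all windows of project GS (`R460.GS`).
-/

set_option autoImplicit false

namespace Pool.Agent.Results.MP_484fb8_nt.NarrowProgressions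

open Finset Filter
open Pool.Agent.H560R3.GB (sing C₂)
open Pool.Agent.W93.PG (cnt)

/-- `#(n)`: the product of the first `n` primes. -/
noncomputable def P (n : ℕ) : ℕ := ∏ i ∈ range n, Nat.nth Nat.Prime i

/-- `S` contains a progression `a, a + d, …, a + (k - 1) d` with difference `1 ≤ d ≤ D`. -/
def HasAP (k : ℕ) (D : ℝ) (S : Finset ℕ) : Prop :=
  ∃ a d : ℕ, 1 ≤ d ∧ (d : ℝ) ≤ D ∧ ∀ i < k, a + i * d ∈ S

open Classical in
/-- The primes `p` in the `n`-th primorial interval with `u < p ≤ v` such that `m - p` is a prime which lies in the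
`n`-th or in the `n + 1`-st primorial interval. -/
noncomputable def G (n m : ℕ) (u v : ℝ) : Finset ℕ :=
  (Icc (P (n - 1) + 1) (P n + 1)).filter (fun p : ℕ => p.Prime ∧ (m - p).Prime ∧
    P (n - 1) + 1 ≤ m - p ∧ m - p ≤ P (n + 1) + 1 ∧ u < p ∧ (p : ℝ) ≤ v)

/-- If `m` belongs to the `n + 1`-st primorial interval, then every window `(u, v]` in the `n`-th primorial interval with
`v ≤ m - #(n - 1) - 1` (so that `m - p > #(n - 1)` in the window) and `v - u ≥ #(n) / (log m)^W` contains at least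
`(1 / 21) sing m (v - u) / (log m)²` primes `p` as in the problem, and every set of at least `κ` times the number of
these primes contains a progression of length `k` with difference at most `(log m) ^ B`. -/
def Holds (W k : ℕ) (κ : ℝ) (B m : ℕ) : Prop :=
  ∀ n : ℕ, 1 ≤ n → P n + 1 ≤ m → m ≤ P (n + 1) + 1 →
    ∀ u v : ℝ, (P (n - 1) : ℝ) ≤ u → v ≤ P n + 1 → v ≤ (m : ℝ) - P (n - 1) - 1 →
      (P n : ℝ) / Real.log m ^ W ≤ v - u →
    1 / 21 * (sing m * (v - u) / Real.log m ^ 2) ≤ (G n m u v).card ∧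
    ∀ S ⊆ G n m u v, κ * (G n m u v).card ≤ S.card → HasAP k (Real.log m ^ B) S

lemma cnt_le (n m : ℕ) (u v : ℝ) (hm : m ≤ P (n + 1) + 1) (hu : (P (n - 1) : ℝ) ≤ u)
    (hv : v ≤ P n + 1) (hv2 : v ≤ (m : ℝ) - P (n - 1) - 1) :
    cnt m ⌊u⌋₊ ⌊v⌋₊ ≤ (G n m u v).card := by
  classical
  unfold cnt G
  apply card_le_card
  intro p hp
  rw [mem_filter, mem_Ioc] at hp
  obtain ⟨⟨h1, h2⟩, h3, h4⟩ := hp
  have hu0 : 0 ≤ u := (Nat.cast_nonneg _).trans hu
  have h5 : u < p := (Nat.floor_lt hu0).1 h1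
  have h6 : (p : ℝ) ≤ v := by
    rcases le_or_gt 0 v with h | h
    · exact (Nat.le_floor_iff h).1 h2
    · rw [Nat.floor_of_nonpos h.le] at h2
      omega
  have h7 : P (n - 1) < p := by exact_mod_cast hu.trans_lt h5
  have h8 : p ≤ P n + 1 := by exact_mod_cast h6.trans hv
  have h9 : p + P (n - 1) + 1 ≤ m := by
    have : (p : ℝ) + P (n - 1) + 1 ≤ m := by linarith
    exact_mod_cast this
  rw [mem_filter, mem_Icc]
  exact ⟨⟨by omega, h8⟩, h3, h4, by omega, by omega, h5, h6⟩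

/-- one `m` -/
theorem holds_of (W k : ℕ) (κ : ℝ) (hκ : 0 < κ) : ∃ B n₀ : ℕ, ∀ m : ℕ, n₀ ≤ m → 2 ∣ m →
    Pool.Agent.R460.GS.WinL (W + 3) m → Holds W k κ B m := by
  obtain ⟨n0, h0⟩ := Pool.Agent.W93.PG.next_prime
  obtain ⟨x₀, hx₀⟩ := Filter.eventually_atTop.1
    (Pool.Agent.R460.GS.real_log (W + 4) (s := 1 / 2) (by norm_num) 100)
  obtain ⟨B, m₀, hdense⟩ := Pool.Agent.Zk41.NP.dense_real (1 / 2) (by norm_num) k (1 / 2)
    (κ * (1 / 21)) (by norm_num) (by positivity)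
  refine ⟨B, ⌈x₀⌉₊ + 100 + m₀ + Pool.Agent.W93.PG.PR (n0 + 50) + 4,
    fun m hm h2m hwin n hn1' hnm hmn u v hu hv hv2 huv => ?_⟩
  have hPR : ∀ n, Pool.Agent.W93.PG.PR n = P n := fun n => rfl
  have hn : n0 + 50 ≤ n := by
    by_contra hcon
    have : Pool.Agent.W93.PG.PR (n + 1) ≤ Pool.Agent.W93.PG.PR (n0 + 50) :=
      Pool.Agent.W93.PG.PR_mono (by omega)
    rw [hPR] at this
    omega
  obtain ⟨n', hn'⟩ : ∃ n', n = n' + 1 := ⟨n - 1, by omega⟩
  have hd1 : n - 1 = n' := by omega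
  have hcnt := cnt_le n m u v hmn hu hv hv2
  have hGmem : ∀ p ∈ G n m u v, p.Prime ∧ (m - p).Prime ∧ P n' + 1 ≤ p ∧ P n' + 1 ≤ m - p ∧
      u < p ∧ (p : ℝ) ≤ v := by
    intro p hp
    unfold G at hp
    rw [mem_filter, mem_Icc, hd1] at hp
    exact ⟨hp.2.1, hp.2.2.1, hp.1.1, hp.2.2.2.1, hp.2.2.2.2.2.1, hp.2.2.2.2.2.2⟩
  rw [hd1] at hu hv2
  obtain ⟨q, hq⟩ : ∃ q, q = P n' := ⟨_, rfl⟩
  obtain ⟨Q, hQ⟩ : ∃ Q, Q = P n := ⟨_, rfl⟩
  obtain ⟨p, hp⟩ : ∃ p, p = Nat.nth Nat.Prime n' := ⟨_, rfl⟩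
  have hQq : Q = q * p := by
    rw [hQ, hn', ← hPR, Pool.Agent.W93.PG.PR_succ, hPR, ← hq, ← hp]
  have hp1 : n + 1 ≤ p := by
    have := Nat.add_two_le_nth_prime n'
    rw [hp]
    omega
  have hnext := h0 n (by omega)
  have hnext' := h0 n' (by omega)
  have hPR1 : P (n + 1) = Q * Nat.nth Nat.Prime n := by
    rw [← hPR, Pool.Agent.W93.PG.PR_succ, hPR, ← hQ]
  rw [hPR, ← hQ] at hnext
  rw [hPR, ← hq, ← hp] at hnext'
  rw [← hQ] at hnm hv huv
  rw [hPR1] at hmn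
  rw [← hq] at hu hv2 hGmem
  have hq0 : 0 < q := by rw [hq, ← hPR]; exact Pool.Agent.W93.PG.PR_pos _
  have hqr : (1 : ℝ) ≤ q := by exact_mod_cast hq0
  have hpr : (42 : ℝ) ≤ p := by exact_mod_cast (by omega : 42 ≤ p)
  have hQr : (Q : ℝ) = q * p := by rw [hQq]; push_cast; ring
  have hq2 : 42 * (q : ℝ) ≤ Q := by rw [hQr]; nlinarith
  have hQ5 : (42 : ℝ) ≤ Q := by linarith
  have hQ0 : (0 : ℝ) < Q := by linarith
  have hmx : x₀ ≤ (m : ℝ) := (Nat.le_ceil x₀).trans (by exact_mod_cast (by omega : ⌈x₀⌉₊ ≤ m))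
  obtain ⟨hL, hLW⟩ := hx₀ m hmx
  have hm0 : (100 : ℝ) ≤ m := by exact_mod_cast (by omega : 100 ≤ m)
  obtain ⟨L, hLd⟩ : ∃ L, L = Real.log m := ⟨_, rfl⟩
  rw [← hLd] at hL hLW huv
  have hL0 : 0 < L := by linarith
  have hL1 : 1 ≤ L := by linarith
  have hsq : (m : ℝ) ^ (1 / 2 : ℝ) = √(m : ℝ) := by rw [Real.sqrt_eq_rpow]
  rw [hsq] at hLW
  have hs0 : 0 < √(m : ℝ) := Real.sqrt_pos.2 (by linarith)
  have hss : √(m : ℝ) * √(m : ℝ) = m := Real.mul_self_sqrt (by linarith)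
  have hpW : 0 < L ^ W := by positivity
  have hpW1 : 1 ≤ L ^ W := one_le_pow₀ hL1
  have hQm : (Q : ℝ) ≤ m := by exact_mod_cast (by omega : Q ≤ m)
  have hlogQ : Real.log Q ≤ L := by rw [hLd]; exact Real.log_le_log hQ0 hQm
  have hlogq : Real.log q ≤ L := by
    rw [hLd]
    exact Real.log_le_log (by linarith) (by linarith)
  have hnx : (Nat.nth Nat.Prime n : ℝ) ≤ 5 * L := by linarith
  have hnx' : (p : ℝ) ≤ 5 * L := by linarith
  have hmQ : (m : ℝ) ≤ 6 * L * Q := by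
    have h5 : (m : ℝ) ≤ Q * Nat.nth Nat.Prime n + 1 := by exact_mod_cast hmn
    have h6 : (Q : ℝ) * Nat.nth Nat.Prime n ≤ Q * (5 * L) := mul_le_mul_of_nonneg_left hnx hQ0.le
    have h7 : 1 ≤ L * Q := by nlinarith
    linarith
  have hQq5 : (Q : ℝ) ≤ 5 * L * q := by
    rw [hQr]
    nlinarith
  -- powers of `L`
  have hLWe : L ^ (W + 4) = L ^ W * L ^ 4 := by rw [pow_add]
  rw [hLWe] at hLW
  have hL2 : 100 * 100 ≤ L ^ 2 := by nlinarith
  have hL3 : 100 * L ^ 2 ≤ L ^ 3 := by nlinarith [pow_pos hL0 2]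
  have hL4 : 100 * L ^ 3 ≤ L ^ 4 := by nlinarith [pow_pos hL0 3]
  have hqs : √(m : ℝ) ≤ q := by
    have h1 : (m : ℝ) ≤ 30 * L ^ 2 * q := by nlinarith
    have h2 : 30 * L ^ 2 ≤ √(m : ℝ) := by
      have : L ^ 4 ≤ L ^ W * L ^ 4 := le_mul_of_one_le_left (by positivity) hpW1
      nlinarith
    have h3 : √(m : ℝ) * √(m : ℝ) ≤ √(m : ℝ) * q := by
      rw [hss]
      refine h1.trans ?_
      exact mul_le_mul_of_nonneg_right h2 (by linarith)
    exact le_of_mul_le_mul_left h3 hs0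
  have hlen0 : (m : ℝ) ≤ 6 * L * L ^ W * (v - u) := by
    have h1 : (Q : ℝ) ≤ (v - u) * L ^ W := by
      rw [div_le_iff₀ hpW] at huv
      exact huv
    nlinarith
  have hvu0 : 0 < v - u := by
    have h1 : 0 < (Q : ℝ) / L ^ W := by positivity
    linarith
  have hlen1 : 21 * √(m : ℝ) ≤ v - u := by
    have h2 : 126 * (L * L ^ W) ≤ √(m : ℝ) := by
      have e1 : 126 * L ≤ L ^ 4 := by nlinarith [pow_pos hL0 2]
      have e2 : 126 * (L * L ^ W) ≤ L ^ W * L ^ 4 := by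
        calc 126 * (L * L ^ W) = L ^ W * (126 * L) := by ring
          _ ≤ L ^ W * L ^ 4 := mul_le_mul_of_nonneg_left e1 hpW.le
      linarith
    have h3 : 21 * √(m : ℝ) * √(m : ℝ) ≤ √(m : ℝ) * (v - u) := by
      have e3 : 21 * (6 * L * L ^ W * (v - u)) ≤ √(m : ℝ) * (v - u) := by
        have := mul_le_mul_of_nonneg_right h2 hvu0.le
        linarith
      have e4 : 21 * √(m : ℝ) * √(m : ℝ) = 21 * m := by rw [mul_assoc, hss]
      linarith
    have h4 : √(m : ℝ) * (21 * √(m : ℝ)) ≤ √(m : ℝ) * (v - u) := by linarith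
    exact le_of_mul_le_mul_left h4 hs0
  have hs10 : 10 ≤ √(m : ℝ) := by
    rw [show (10 : ℝ) = √(100 : ℝ) by
      rw [show (100 : ℝ) = 10 ^ 2 by norm_num, Real.sqrt_sq (by norm_num)]]
    exact Real.sqrt_le_sqrt hm0
  have hsing := Pool.Agent.R460.GS.one_le_sing m
  have hu0 : 0 ≤ u := (Nat.cast_nonneg _).trans hu
  have hv0 : 0 ≤ v := by linarith
  have hvm : v < m := by linarith
  have hcount : 1 / 21 * (sing m * (v - u) / L ^ 2) ≤ ((G n m u v).card : ℝ) := by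
    have hf1 : (⌊u⌋₊ : ℝ) ≤ u := Nat.floor_le hu0
    have hf2 : v < ⌊v⌋₊ + 1 := Nat.lt_floor_add_one v
    have hf3 : (⌊v⌋₊ : ℝ) ≤ v := Nat.floor_le hv0
    have hd : v - u - 1 ≤ (⌊v⌋₊ : ℝ) - ⌊u⌋₊ := by linarith
    have hlt : ⌊u⌋₊ < ⌊v⌋₊ := by
      have : (⌊u⌋₊ : ℝ) < ⌊v⌋₊ := by linarith
      exact_mod_cast this
    have hle : ⌊v⌋₊ ≤ m := by
      have : (⌊v⌋₊ : ℝ) ≤ m := by linarith
      exact_mod_cast this
    have h2 := hwin ⌊u⌋₊ ⌊v⌋₊ hlt hle (by
      rw [← hLd]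
      refine le_trans ?_ hd
      have h3 : (m : ℝ) / L ^ (W + 3) ≤ (v - u) / 2 := by
        rw [div_le_iff₀ (by positivity)]
        refine hlen0.trans ?_
        have e1 : 12 * L ≤ L ^ 3 := by nlinarith
        have e2 : L ^ (W + 3) = L ^ W * L ^ 3 := by rw [pow_add]
        rw [e2]
        have e3 : 0 < (v - u) * L ^ W := by positivity
        nlinarith
      linarith)
    rw [← hLd] at h2
    have h3 : (cnt m ⌊u⌋₊ ⌊v⌋₊ : ℝ) ≤ (G n m u v).card := by exact_mod_cast hcnt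
    refine le_trans ?_ (h2.trans h3)
    have h4 : 20 / 21 * (v - u) ≤ (⌊v⌋₊ : ℝ) - ⌊u⌋₊ := by linarith
    have h5 : 0 < L ^ 2 := by positivity
    rw [mul_div_assoc', mul_div_assoc', div_le_div_iff_of_pos_right h5]
    nlinarith
  rw [← hLd]
  refine ⟨hcount, fun S hS hSc => ?_⟩
  rw [hLd]
  apply hdense m (by omega) (even_iff_two_dvd.2 h2m) u v hu0 hvm (by rw [hsq]; linarith) S
  · intro x hx
    obtain ⟨h3, h4, h5, h6, h7, h8⟩ := hGmem x (hS hx)
    refine ⟨h3, h7, h8, ?_, fun y hy hyd => ?_⟩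
    · rw [hsq]
      exact hqs.trans (by exact_mod_cast (by omega : q ≤ x))
    · have h9 : y = m - x := (Nat.prime_dvd_prime_iff_eq hy h4).1 hyd
      rw [h9, hsq]
      exact hqs.trans (by exact_mod_cast (by omega : q ≤ m - x))
  · rw [← hLd]
    refine le_trans ?_ hSc
    have h1 := Pool.Agent.Zk41.NP.sg_le_sing m
    have h2 : 0 ≤ (v - u) / L ^ 2 := div_nonneg hvu0.le (by positivity)
    calc κ * (1 / 21) * (Pool.Agent.K3h89.SX.sg m * ((v - u) / L ^ 2))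
        ≤ κ * (1 / 21) * (sing m * ((v - u) / L ^ 2)) :=
          mul_le_mul_of_nonneg_left (mul_le_mul_of_nonneg_right h1 h2) (by positivity)
      _ = κ * (1 / 21 * (sing m * (v - u) / L ^ 2)) := by ring
      _ ≤ κ * (G n m u v).card := mul_le_mul_of_nonneg_left hcount hκ.le

/-- **Szemerédi's theorem for the Goldbach representations in primorial intervals.** See the description above. -/
theorem result (W k : ℕ) (κ : ℝ) (hκ : 0 < κ) : ∃ B : ℕ, ∀ ρ : ℝ, 0 < ρ → ∀ A T : ℕ, ∃ x₀ : ℝ, ∀ x : ℝ, x₀ ≤ x →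
    ∀ q : ℕ, 1 ≤ q → (q : ℝ) ≤ x ^ (7 / 10 - ρ) → ∀ a : ℤ, (Int.gcd a q : ℝ) ≤ Real.log x ^ T →
      ({m : ℕ | 0 < m ∧ (m : ℝ) ≤ x ∧ 2 ∣ m ∧ (m : ℤ) ≡ a [ZMOD q] ∧ ¬ Holds W k κ B m}).Finite ∧
      (({m : ℕ | 0 < m ∧ (m : ℝ) ≤ x ∧ 2 ∣ m ∧ (m : ℤ) ≡ a [ZMOD q] ∧ ¬ Holds W k κ B m}.ncard : ℕ) : ℝ) ≤
        x / (q * Real.log x ^ A) := by
  obtain ⟨B, hB⟩ := holds_of W k κ hκ
  exact ⟨B, fun ρ hρ A T => Pool.Agent.R460.GS.class_few (Holds W k κ B) (W + 3) hB ρ hρ A T⟩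

end Pool.Agent.Results.MP_484fb8_nt.NarrowProgressions
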